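import Pool.Agent.Y956.CP.Fin

/-!
# Errors `O(1/x)` do not matter in long windows of scales
-/

set_option autoImplicit false

namespace Pool.Agent.Y956.CP.Trf

open Finset
open Pool.Agent.Y956.CB

lemma sum_sq_le (Y W : ℕ) (hY : 1 ≤ Y) : ∑ x ∈ Ioc Y W, (1 / (x : ℝ)) * (1 / (x : ℝ)) ≤ 1 := by
  have h : ∀ W : ℕ, Y ≤ W → ∑ x ∈ Ioc Y W, (1 / (x : ℝ)) * (1 / (x : ℝ)) ≤ 1 / (Y : ℝ) - 1 / (W : ℝ) := by
    intro W hW
    induction W, hW using Nat.le_induction with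
    | base => simp
    | succ W hW ih =>
      have hW0 : (0 : ℝ) < W := by exact_mod_cast lt_of_lt_of_le hY hW
      rw [sum_Ioc_succ_top hW]
      have e : (1 / ((W + 1 : ℕ) : ℝ)) * (1 / ((W + 1 : ℕ) : ℝ)) ≤ 1 / (W : ℝ) - 1 / ((W + 1 : ℕ) : ℝ) := by
        push_cast
        rw [div_mul_div_comm, one_mul, div_sub_div _ _ hW0.ne' (by positivity), div_le_div_iff₀ (by positivity)
          (by positivity)]
        nlinarith
      linarith
  have hY0 : (1 : ℝ) ≤ Y := by exact_mod_cast hY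
  rcases le_total Y W with h1 | h1
  · have h2 := h W h1
    have h3 : 1 / (Y : ℝ) ≤ 1 := by rw [div_le_one (by linarith)]; exact hY0
    have h4 : 0 ≤ 1 / (W : ℝ) := by positivity
    linarith
  · rw [Ioc_eq_empty_of_le h1]
    simp

lemma WA_add (φ ψ : ℕ → ℝ) (Y W : ℕ) : WA (fun x => φ x + ψ x) Y W = WA φ Y W + WA ψ Y W := by
  unfold WA
  rw [← mul_add, ← sum_add_distrib]
  congr 1
  apply sum_congr rfl
  intro x _
  ring

/-- errors `O(1/x)` do not matter in long windows -/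
lemma wa_transfer {ι : Type} (S : Finset ι) (φ φ' : ι → ℕ → ℝ) (B : ℝ) (hB0 : 0 ≤ B)
    (hM : ∀ e ∈ S, ∀ x : ℕ, 1 ≤ x → φ' e x ≤ φ e x + B * (1 / (x : ℝ))) (ε : ℝ) (hε : 0 < ε) :
    ∃ n₀ : ℕ, ∀ Y W : ℕ, 1 ≤ Y → n₀ * Y ≤ W →
      ∀ e ∈ S, ε < WA (φ' e) Y W → ε / 2 < WA (φ e) Y W := by
  obtain ⟨n₀, hn₀⟩ := exists_nat_ge (Real.exp (2 * B / ε + 1))
  refine ⟨n₀, fun Y W hY hW e he h => ?_⟩
  have hY0 : (0 : ℝ) < Y := by exact_mod_cast hY
  have hWY : (n₀ : ℝ) ≤ (W : ℝ) / Y := by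
    rw [le_div_iff₀ hY0]
    exact_mod_cast hW
  have hlog : 2 * B / ε + 1 ≤ Real.log ((W : ℝ) / Y) := by
    rw [Real.le_log_iff_exp_le (lt_of_lt_of_le (Real.exp_pos _) (hn₀.trans hWY))]
    exact hn₀.trans hWY
  have hlog0 : 0 < Real.log ((W : ℝ) / Y) := by
    have : 0 ≤ 2 * B / ε := by positivity
    linarith
  have h4 : WA (φ' e) Y W ≤ WA (φ e) Y W + ε / 2 := by
    unfold WA
    calc (1 / Real.log ((W : ℝ) / Y)) * ∑ x ∈ Ioc Y W, (1 / (x : ℝ)) * φ' e x
        ≤ (1 / Real.log ((W : ℝ) / Y)) * ∑ x ∈ Ioc Y W, ((1 / (x : ℝ)) *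
          φ e x + B * ((1 / (x : ℝ)) * (1 / (x : ℝ)))) := by
          apply mul_le_mul_of_nonneg_left _ (by positivity)
          apply sum_le_sum
          intro x hx
          rw [mem_Ioc] at hx
          have hx0 : (0 : ℝ) < x := by
            have : 0 < x := by omega
            exact_mod_cast this
          have h5 := hM e he x (by omega)
          have h8 : (1 / (x : ℝ)) * φ' e x ≤ (1 / (x : ℝ)) * (φ e x + B * (1 / (x : ℝ))) :=
            mul_le_mul_of_nonneg_left (by linarith) (by positivity)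
          linarith [h8]
      _ = (1 / Real.log ((W : ℝ) / Y)) * ∑ x ∈ Ioc Y W, (1 / (x : ℝ)) * φ e x +
          (1 / Real.log ((W : ℝ) / Y)) * (B * ∑ x ∈ Ioc Y W, (1 / (x : ℝ)) * (1 / (x : ℝ))) := by
          rw [sum_add_distrib, mul_add, mul_sum (a := B)]
      _ ≤ _ := by
          apply add_le_add le_rfl
          have h9 : B * ∑ x ∈ Ioc Y W, (1 / (x : ℝ)) * (1 / (x : ℝ)) ≤ B :=
            (mul_le_mul_of_nonneg_left (sum_sq_le Y W hY) hB0).trans (mul_one B).le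
          rw [one_div, inv_mul_le_iff₀ hlog0]
          have h10 : ε / 2 * (2 * B / ε + 1) ≤ ε / 2 * Real.log ((W : ℝ) / Y) :=
            mul_le_mul_of_nonneg_left hlog (by positivity)
          have h11 : ε / 2 * (2 * B / ε + 1) = B + ε / 2 := by
            field_simp
          have h12 : Real.log ((W : ℝ) / Y) * (ε / 2) = ε / 2 * Real.log ((W : ℝ) / Y) := mul_comm _ _
          linarith
  linarith

end Pool.Agent.Y956.CP.Trf
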