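import Pool.Agent.Y956.CP.Mob

/-!
# The products `λ(n) λ(n + d)` against arbitrary bounded multiplicative functions along dilated tuples
-/

set_option autoImplicit false

namespace Pool.Agent.Y956.CP

open Finset
open Pool.Agent.Y956.CB

/-- the Liouville function -/
def lamN (n : ℕ) : ℤ := (-1) ^ (ArithmeticFunction.cardFactors n)

/-- periodic weight, Liouville product with the fixed gap `d`, multiplicative functions at `n + h b_i` -/
noncomputable def corT {k : ℕ} (w : ℕ → ℂ) (g : Fin k → ℕ → ℂ) (b : Fin k → ℤ) (d h x : ℕ) : ℂ :=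
  (1 / (x : ℂ)) * ∑ n ∈ Icc 1 x, w n * ((lamN n * lamN (n + d) : ℤ) : ℂ) * ∏ i, exz (g i) (n + h * b i)

theorem two_dil (k Q : ℕ) (ε : ℝ) (hε : 0 < ε) : ∃ C : ℝ, ∃ H₀ : ℕ,
    ∀ (w : ℕ → ℂ), LPQ w Q (ε / 2) → ∀ g : Fin k → ℕ → ℂ, (∀ i, Mult1 (g i)) → ∀ (b : Fin k → ℤ)
    (d : ℕ), 1 ≤ d → ∀ (S : Finset ℕ), (∀ h ∈ S, 1 ≤ h) →
    ∃ ω₀ : ℕ, ∀ Y W : ℕ, 1 ≤ Y → ω₀ * Y ≤ W →
      ∑ h ∈ S.filter (fun h => ε < WA (fun x => ‖corT w g b d h x‖) Y W), 1 / (h : ℝ) ≤ C ∧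
      ∀ H : ℕ, H₀ ≤ H → (((S.filter (fun h => ε < WA (fun x => ‖corT w g b d h x‖) Y W)).filter
        (fun h => h ≤ H)).card : ℝ) ≤ ε * H := by
  classical
  obtain ⟨C, _, H₀, _, hmain⟩ := fin_rare scaled (k + 1) 1 Q ε hε
  refine ⟨C, H₀, fun w hw g hg b d hd S hS1 => ?_⟩
  have hl1 : ∀ n, ‖((lamN n : ℤ) : ℂ)‖ ≤ 1 := by
    intro n
    unfold lamN
    push_cast
    rw [norm_pow, norm_neg, norm_one, one_pow]
  have hlm : Mult1 (fun n => ((lamN n : ℤ) : ℂ)) := by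
    refine ⟨hl1, fun m n hm hn _ => ?_⟩
    show ((lamN (m * n) : ℤ) : ℂ) = ((lamN m : ℤ) : ℂ) * ((lamN n : ℤ) : ℂ)
    unfold lamN
    rw [ArithmeticFunction.cardFactors_mul (by omega) (by omega)]
    push_cast
    rw [pow_add]
  set g' : Fin (k + 1) → ℕ → ℂ := Fin.cons (fun n => ((lamN n : ℤ) : ℂ)) g with hg'
  set b' : Fin (k + 1) → ℤ := Fin.cons 0 b with hb'
  have hgm : ∀ j, Mult1 (g' j) := by
    intro j
    refine Fin.cases ?_ (fun i => ?_) j
    · simpa [hg'] using hlm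
    · simpa [hg'] using hg i
  set ι : ℕ ↪ ℕ × ℤ := ⟨fun h => (h, (d : ℤ)), fun h h' e => (Prod.ext_iff.1 e).1⟩ with hι
  have hD : DistZ (S.map ι) := by
    constructor
    · intro e he
      rw [mem_map] at he
      obtain ⟨h, hh, rfl⟩ := he
      exact hS1 h hh
    · intro e he e' he' hne
      rw [mem_map] at he he'
      obtain ⟨h, _, rfl⟩ := he
      obtain ⟨h', _, rfl⟩ := he'
      intro h1
      apply hne
      have h2 : (d : ℤ) * (h' : ℤ) = (d : ℤ) * (h : ℤ) := h1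
      have h3 : (d : ℤ) ≠ 0 := by
        have : d ≠ 0 := by omega
        exact_mod_cast this
      have h4 : (h' : ℤ) = (h : ℤ) := mul_left_cancel₀ h3 h2
      have h5 : h' = h := by exact_mod_cast h4
      rw [h5]
  obtain ⟨ω₀, h1⟩ := hmain 1 le_rfl le_rfl w hw g' hgm lamN mu_lam expo_lam (exz (fun m => (lamN m : ℂ)))
    (fun i => exz (g' i)) (exz_ext hl1) (fun i => exz_ext (hgm i).1) 0 (S.map ι) hD b'
  refine ⟨ω₀, fun Y W hY hW => ?_⟩
  obtain ⟨h2, h3⟩ := h1 Y W hY hW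
  have e1 : ∀ h : ℕ, (fun x => ‖wav w (Ps (exz (fun m => (lamN m : ℂ))) (fun i => exz (g' i))
        1 0 (d : ℤ) (fun j => b' j * (h : ℤ))) x‖) = fun x => ‖corT w g b d h x‖ := by
    intro h
    funext x
    congr 1
    unfold wav Ps corT
    congr 1
    apply sum_congr rfl
    intro n hn
    rw [mem_Icc] at hn
    rw [Fin.prod_univ_succ]
    have e2 : exz (fun m => (lamN m : ℂ)) (((1 : ℕ) : ℤ) * n + 0 + (d : ℤ)) = ((lamN (n + d) : ℤ) : ℂ) := by
      have : (((1 : ℕ) : ℤ) * n + 0 + (d : ℤ)) = ((n + d : ℕ) : ℤ) := by push_cast; ring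
      rw [this, exz_nat _ _ (by omega)]
    have e3 : exz (g' 0) (((1 : ℕ) : ℤ) * n + 0 + b' 0 * (h : ℤ)) = ((lamN n : ℤ) : ℂ) := by
      have : (((1 : ℕ) : ℤ) * n + 0 + b' 0 * (h : ℤ)) = ((n : ℕ) : ℤ) := by simp [hb']
      rw [this, exz_nat _ _ (by omega)]
      simp [hg']
    have e4 : ∏ i : Fin k, exz (g' i.succ) (((1 : ℕ) : ℤ) * n + 0 + b' i.succ * (h : ℤ)) =
        ∏ i, exz (g i) (n + h * b i) := by
      apply prod_congr rfl
      intro i _
      simp only [hg', hb', Fin.cons_succ]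
      congr 1
      push_cast
      ring
    beta_reduce
    rw [e2, e3, e4]
    push_cast
    ring
  have e5 : (S.map ι).filter (fun e => ε < WA (fun x => ‖wav w (Ps (exz (fun m => (lamN m : ℂ)))
      (fun i => exz (g' i)) 1 0 e.2 (fun j => b' j * e.1)) x‖) Y W) =
      (S.filter (fun h => ε < WA (fun x => ‖corT w g b d h x‖) Y W)).map ι := by
    ext e
    simp only [mem_filter, mem_map]
    constructor
    · rintro ⟨⟨h, hh, rfl⟩, h4⟩
      refine ⟨h, ⟨hh, ?_⟩, rfl⟩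
      rw [← e1 h]
      exact h4
    · rintro ⟨h, ⟨hh, h4⟩, rfl⟩
      refine ⟨⟨h, hh, rfl⟩, ?_⟩
      rw [← e1 h] at h4
      exact h4
  rw [e5] at h2 h3
  constructor
  · rw [sum_map] at h2
    exact h2
  · intro H hH
    have h4 := h3 H hH
    have e6 : (((S.filter (fun h => ε < WA (fun x => ‖corT w g b d h x‖) Y W)).map ι).filter
        (fun e => e.1 ≤ H)) =
        ((S.filter (fun h => ε < WA (fun x => ‖corT w g b d h x‖) Y W)).filter (fun h => h ≤ H)).map ι := by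
      ext e
      simp only [mem_filter, mem_map]
      constructor
      · rintro ⟨⟨h, hh, rfl⟩, h5⟩
        exact ⟨h, ⟨hh, h5⟩, rfl⟩
      · rintro ⟨h, ⟨hh, h5⟩, rfl⟩
        exact ⟨⟨h, hh, rfl⟩, h5⟩
    rw [e6, card_map] at h4
    exact h4

end Pool.Agent.Y956.CP
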